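import Mathlib

/-!
A weakly mixing homeomorphism of a compact metric space with a transitive point that has no
transitive partner.

The space is the orbit closure of the indicator sequence of a set `A` of natural numbers such that
`a + b + 1 ≠ c` for all `a, b, c` in `A`, while `A` is so rich that the orbit closure is weakly
mixing.
-/

set_option autoImplicit false

open Set Filter Topology Function

namespace Pool.Agent.Results.MP_a8308c_an.NoPartner

/-- Translation amounts used at a stage of size `l`. -/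
def R (l : ℕ) : Set ℕ :=
  {p | p = 0 ∨ ∃ j ≤ 2 * l, p = 30 * l ^ 2 + 10 * (l * j) ∨
    p = 30 * l ^ 2 + 10 * (l * j) + 3 * l + j}

lemma R_zero (l : ℕ) : 0 ∈ R l := Or.inl rfl

lemma R_bound {l p : ℕ} (hl : 1 ≤ l) (hp : p ∈ R l) :
    p = 0 ∨ (30 * l ^ 2 ≤ p ∧ p + l ≤ 60 * l ^ 2) := by
  rcases hp with h | ⟨j, hj, h | h⟩
  · exact Or.inl h
  · right
    have h1 : l * j ≤ l * (2 * l) := Nat.mul_le_mul_left _ hj
    constructor
    · omega
    · nlinarith
  · right
    have h1 : l * j ≤ l * (2 * l) := Nat.mul_le_mul_left _ hj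
    constructor
    · omega
    · nlinarith

lemma R_sep_aux {l j j' : ℕ} (h : j < j') : l * j + l ≤ l * j' := by
  have : l * (j + 1) ≤ l * j' := Nat.mul_le_mul_left _ h
  linarith [Nat.mul_succ l j]

lemma R_sep {l p p' : ℕ} (hl : 1 ≤ l) (hp : p ∈ R l) (hp' : p' ∈ R l) (hne : p ≠ p') :
    p + 3 * l ≤ p' ∨ p' + 3 * l ≤ p := by
  have hl2 : l ≤ l ^ 2 := by nlinarith
  rcases hp with h | ⟨j, hj, h⟩
  · rcases hp' with h' | ⟨j', hj', h' | h'⟩
    · omega
    · left; omega
    · left; omega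
  · rcases hp' with h' | ⟨j', hj', h'⟩
    · right; rcases h with h | h <;> omega
    · rcases lt_trichotomy j j' with hlt | heq | hgt
      · have := R_sep_aux (l := l) hlt
        left
        rcases h with h | h <;> rcases h' with h' | h' <;> omega
      · subst heq
        rcases h with h | h <;> rcases h' with h' | h' <;> omega
      · have := R_sep_aux (l := l) hgt
        right
        rcases h with h | h <;> rcases h' with h' | h' <;> omega

/-- Sizes of the stages. -/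
def ell : ℕ → ℕ
  | 0 => 1
  | k + 1 => 100 * (ell k) ^ 2

lemma ell_pos (k : ℕ) : 1 ≤ ell k := by
  induction k with
  | zero => simp [ell]
  | succ k ih => simp only [ell]; nlinarith

lemma ell_lt_succ (k : ℕ) : ell k < ell (k + 1) := by
  have := ell_pos k
  simp only [ell]; nlinarith

lemma le_ell (k : ℕ) : k ≤ ell k := by
  induction k with
  | zero => simp
  | succ k ih => have := ell_lt_succ k; omega

lemma ell_mono : Monotone ell := monotone_nat_of_le_succ fun k => (ell_lt_succ k).le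

/-- The finite stages of the set. -/
def A : ℕ → Set ℕ
  | 0 => {0}
  | k + 1 => {n | ∃ p ∈ R (ell k), ∃ a ∈ A k, n = p + a}

lemma A_lt : ∀ {k a : ℕ}, a ∈ A k → a < ell k := by
  intro k
  induction k with
  | zero => intro a ha; simp only [A, mem_singleton_iff] at ha; simp [ha, ell]
  | succ k ih =>
    rintro n ⟨p, hp, a, ha, rfl⟩
    have h1 := ih ha
    have h2 := R_bound (ell_pos k) hp
    have h3 := ell_pos k
    have h4 : ell k ≤ ell k ^ 2 := by nlinarith
    simp only [ell]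
    omega

lemma A_succ (k : ℕ) : A k ⊆ A (k + 1) := fun a ha => ⟨0, R_zero _, a, ha, by simp⟩

lemma A_mono : Monotone A := monotone_nat_of_le_succ A_succ

lemma A_next {k n : ℕ} (hn : n ∈ A (k + 1)) (h : n < 30 * (ell k) ^ 2) : n ∈ A k := by
  obtain ⟨p, hp, a, ha, rfl⟩ := hn
  rcases R_bound (ell_pos k) hp with h0 | h0
  · subst h0; simpa using ha
  · omega

lemma A_free : ∀ k : ℕ, ∀ a ∈ A k, ∀ b ∈ A k, ∀ c ∈ A k, a + b + 1 ≠ c := by
  intro k
  induction k with
  | zero =>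
    intro a ha b hb c hc
    simp only [A, mem_singleton_iff] at ha hb hc
    omega
  | succ k ih =>
    rintro _ ⟨p, hp, a, ha, rfl⟩ _ ⟨q, hq, b, hb, rfl⟩ _ ⟨r, hr, c, hc, rfl⟩
    have ha' := A_lt ha
    have hb' := A_lt hb
    have hc' := A_lt hc
    have hab := ih a ha b hb c hc
    have hl := ell_pos k
    have h1 := R_bound hl hp
    have h2 := R_bound hl hq
    have h3 := R_bound hl hr
    have h4 : ell k ≤ ell k ^ 2 := by nlinarith
    have hpr : p = r ∨ p + 3 * ell k ≤ r ∨ r + 3 * ell k ≤ p := by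
      by_cases h : p = r
      · exact Or.inl h
      · exact Or.inr (R_sep hl hp hr h)
    have hqr : q = r ∨ q + 3 * ell k ≤ r ∨ r + 3 * ell k ≤ q := by
      by_cases h : q = r
      · exact Or.inl h
      · exact Or.inr (R_sep hl hq hr h)
    generalize ell k ^ 2 = t at *
    generalize ell k = l at *
    omega

/-- The set itself. -/
def Ainf : Set ℕ := ⋃ k, A k

lemma Ainf_free {a b c : ℕ} (ha : a ∈ Ainf) (hb : b ∈ Ainf) (hc : c ∈ Ainf) : a + b + 1 ≠ c := by
  obtain ⟨i, hi⟩ := mem_iUnion.1 ha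
  obtain ⟨j, hj⟩ := mem_iUnion.1 hb
  obtain ⟨k, hk⟩ := mem_iUnion.1 hc
  have h1 := A_mono (le_max_left i (max j k)) hi
  have h2 := A_mono ((le_max_left j k).trans (le_max_right i (max j k))) hj
  have h3 := A_mono ((le_max_right j k).trans (le_max_right i (max j k))) hk
  exact A_free _ _ h1 _ h2 _ h3

lemma A_restrict {k n : ℕ} (j : ℕ) (hn : n ∈ A (k + j)) (h : n < 30 * (ell k) ^ 2) : n ∈ A k := by
  induction j with
  | zero => simpa using hn
  | succ j ih =>
    apply ih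
    apply A_next (k := k + j) hn
    have : ell k ≤ ell (k + j) := ell_mono (by omega)
    have : ell k ^ 2 ≤ ell (k + j) ^ 2 := Nat.pow_le_pow_left this 2
    omega

lemma Ainf_restrict {k n : ℕ} (hn : n ∈ Ainf) (h : n < 30 * (ell k) ^ 2) : n ∈ A k := by
  obtain ⟨i, hi⟩ := mem_iUnion.1 hn
  exact A_restrict i (A_mono (by omega : i ≤ k + i) hi) h

lemma A_sub (k : ℕ) : A k ⊆ Ainf := subset_iUnion A k

lemma zero_mem : 0 ∈ Ainf := A_sub 0 (by simp [A])

/-- The transitive point. -/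
noncomputable def x0 : ℤ → Bool := by
  classical exact fun i => decide (∃ n ∈ Ainf, (n : ℤ) = i)

lemma x0_iff {i : ℤ} : x0 i = true ↔ ∃ n ∈ Ainf, (n : ℤ) = i := by
  classical simp [x0]

lemma x0_return {k q : ℕ} (hq : q ∈ R (ell k)) {i : ℤ} (hi : |i| ≤ ell k) :
    x0 (i + q) = x0 i := by
  have hl := ell_pos k
  have h4 : ell k ≤ ell k ^ 2 := by nlinarith
  rcases R_bound hl hq with h0 | ⟨hq1, hq2⟩
  · subst h0; simp
  rw [Bool.eq_iff_iff, x0_iff, x0_iff]
  rw [abs_le] at hi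
  constructor
  · rintro ⟨n, hn, hni⟩
    have hn1 : n ∈ A (k + 1) := by
      apply Ainf_restrict hn
      simp only [ell]
      have : (n : ℤ) ≤ 60 * ell k ^ 2 := by push_cast [← Nat.cast_le (α := ℤ)] at hq2; linarith
      have h5 : n ≤ 60 * ell k ^ 2 := by exact_mod_cast this
      have h6 : 1 ≤ ell k ^ 2 := by omega
      nlinarith
    obtain ⟨p, hp, a, ha, rfl⟩ := hn1
    have ha' := A_lt ha
    by_cases hpq : p = q
    · subst hpq
      exact ⟨a, A_sub k ha, by push_cast at hni; linarith⟩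
    · exfalso
      rcases R_sep hl hp hq hpq with h | h
      · push_cast at hni; omega
      · push_cast at hni; omega
  · rintro ⟨n, hn, rfl⟩
    have hn1 : n ∈ A k := by
      apply Ainf_restrict hn
      omega
    exact ⟨q + n, A_sub (k + 1) ⟨q, hq, n, hn1, rfl⟩, by push_cast; ring⟩

/-- The shift homeomorphism. -/
def sh : (ℤ → Bool) ≃ₜ (ℤ → Bool) where
  toFun z := fun n => z (n + 1)
  invFun z := fun n => z (n - 1)
  left_inv z := by ext n; simp
  right_inv z := by ext n; simp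
  continuous_toFun := continuous_pi fun n => continuous_apply _
  continuous_invFun := continuous_pi fun n => continuous_apply _

lemma sh_apply (z : ℤ → Bool) (n : ℤ) : sh z n = z (n + 1) := rfl

lemma sh_iter (p : ℕ) (z : ℤ → Bool) (n : ℤ) : (sh^[p] z) n = z (n + p) := by
  induction p generalizing z with
  | zero => simp
  | succ p ih =>
    rw [Function.iterate_succ_apply, ih, sh_apply]
    congr 1; push_cast; ring

/-- The forward orbit. -/
def orb : Set (ℤ → Bool) := Set.range fun n : ℕ => sh^[n] x0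

/-- The orbit closure. -/
def K : Set (ℤ → Bool) := closure orb

lemma nhds_window {W : Set (ℤ → Bool)} (hW : W ∈ 𝓝 x0) :
    ∃ m : ℕ, ∀ z : ℤ → Bool, (∀ i : ℤ, |i| ≤ m → z i = x0 i) → z ∈ W := by
  rw [nhds_pi, Filter.mem_pi] at hW
  obtain ⟨I, hI, t, ht, hsub⟩ := hW
  obtain ⟨m, hm⟩ : ∃ m : ℕ, ∀ i ∈ I, |i| ≤ m := by
    obtain ⟨B, hB⟩ := (hI.image fun i : ℤ => i.natAbs).bddAbove
    refine ⟨B, fun i hi => ?_⟩
    have h : i.natAbs ≤ B := hB (mem_image_of_mem _ hi)
    rw [Int.abs_eq_natAbs]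
    exact_mod_cast h
  refine ⟨m, fun z hz => hsub ?_⟩
  intro i hi
  rw [hz i (hm i hi)]
  exact mem_of_mem_nhds (ht i)

/-- All sufficiently good return times bring `x0` back to a given neighbourhood. -/
lemma nhds_return {W : Set (ℤ → Bool)} (hW : W ∈ 𝓝 x0) :
    ∃ k₀ : ℕ, ∀ k ≥ k₀, ∀ q ∈ R (ell k), sh^[q] x0 ∈ W := by
  obtain ⟨m, hm⟩ := nhds_window hW
  refine ⟨m, fun k hk q hq => hm _ fun i hi => ?_⟩
  rw [sh_iter]
  apply x0_return hq
  have := le_ell k
  omega

lemma image_orb_subset : sh '' orb ⊆ orb := by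
  rintro _ ⟨_, ⟨n, rfl⟩, rfl⟩
  exact ⟨n + 1, by simp only [Function.iterate_succ_apply']⟩

lemma x0_mem_closure_image : x0 ∈ closure (sh '' orb) := by
  rw [mem_closure_iff_nhds]
  intro W hW
  obtain ⟨k, hk⟩ := nhds_return hW
  have hq : 30 * (ell k) ^ 2 + 10 * (ell k * 0) ∈ R (ell k) := Or.inr ⟨0, by omega, Or.inl rfl⟩
  have hpos : 0 < 30 * (ell k) ^ 2 + 10 * (ell k * 0) := by
    have := ell_pos k
    positivity
  refine ⟨_, hk k le_rfl _ hq, ?_⟩
  obtain ⟨r, hr⟩ : ∃ r, 30 * (ell k) ^ 2 + 10 * (ell k * 0) = r + 1 := ⟨_, (Nat.succ_pred_eq_of_pos hpos).symm⟩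
  rw [hr, Function.iterate_succ_apply']
  exact mem_image_of_mem _ ⟨r, rfl⟩

lemma image_K : sh '' K = K := by
  have h0 : sh '' K = closure (sh '' orb) := sh.image_closure orb
  apply Subset.antisymm
  · rw [h0]; exact closure_mono image_orb_subset
  · rw [h0]
    apply closure_minimal _ isClosed_closure
    rintro _ ⟨n, rfl⟩
    rcases n with _ | n
    · exact x0_mem_closure_image
    · apply subset_closure
      simp only [Function.iterate_succ_apply']
      exact mem_image_of_mem _ ⟨n, rfl⟩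

lemma mem_K_iff (z : ℤ → Bool) : z ∈ K ↔ sh z ∈ K := by
  constructor
  · intro h; rw [← image_K]; exact mem_image_of_mem _ h
  · intro h
    rw [← image_K] at h
    obtain ⟨w, hw, hwz⟩ := h
    rwa [← sh.injective hwz]

/-- The system. -/
def T : K ≃ₜ K := sh.subtype mem_K_iff

lemma T_coe (z : K) : ((T z : K) : ℤ → Bool) = sh z := rfl

lemma T_iter (p : ℕ) (z : K) : ((T^[p] z : K) : ℤ → Bool) = sh^[p] z := by
  induction p generalizing z with
  | zero => rfl
  | succ p ih => rw [Function.iterate_succ_apply, ih, T_coe, ← Function.iterate_succ_apply]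

/-- The transitive point as a point of the system. -/
noncomputable def x : K := ⟨x0, subset_closure ⟨0, rfl⟩⟩

lemma x_dense : Dense (Set.range fun n : ℕ => T^[n] x) := by
  intro z
  rw [mem_closure_iff_nhds]
  intro W hW
  obtain ⟨V, hV, hVW⟩ := mem_nhds_subtype K z W |>.1 hW
  have hz : (z : ℤ → Bool) ∈ closure orb := z.2
  obtain ⟨_, hyV, ⟨n, rfl⟩⟩ := mem_closure_iff_nhds.1 hz V hV
  refine ⟨T^[n] x, hVW ?_, ⟨n, rfl⟩⟩
  show ((T^[n] x : K) : ℤ → Bool) ∈ V
  rw [T_iter]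
  exact hyV

lemma nhds_return_K {W : Set K} (hW : W ∈ 𝓝 x) :
    ∃ k₀ : ℕ, ∀ k ≥ k₀, ∀ q ∈ R (ell k), T^[q] x ∈ W := by
  obtain ⟨V, hV, hVW⟩ := mem_nhds_subtype K x W |>.1 hW
  obtain ⟨k₀, hk⟩ := nhds_return (W := V) hV
  refine ⟨k₀, fun k hk' q hq => hVW ?_⟩
  show ((T^[q] x : K) : ℤ → Bool) ∈ V
  rw [T_iter]
  exact hk k hk' q hq

/-- Transitivity of the product, in the open set form. -/
lemma mixing {U V U' V' : Set K} (hU : IsOpen U) (hV : IsOpen V) (hU' : IsOpen U')
    (hV' : IsOpen V') (hUn : U.Nonempty) (hVn : V.Nonempty) (hUn' : U'.Nonempty)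
    (hVn' : V'.Nonempty) :
    ∃ n : ℕ, ∃ z ∈ U, ∃ z' ∈ U', T^[n] z ∈ V ∧ T^[n] z' ∈ V' := by
  obtain ⟨_, hu, ⟨a, rfl⟩⟩ := x_dense.inter_open_nonempty U hU hUn
  obtain ⟨_, hv, ⟨b, rfl⟩⟩ := x_dense.inter_open_nonempty V hV hVn
  obtain ⟨_, hu', ⟨a', rfl⟩⟩ := x_dense.inter_open_nonempty U' hU' hUn'
  obtain ⟨_, hv', ⟨b', rfl⟩⟩ := x_dense.inter_open_nonempty V' hV' hVn'
  have key : ∀ (c : ℕ) (O : Set K), IsOpen O → T^[c] x ∈ O →
      ∃ k₀ : ℕ, ∀ k ≥ k₀, ∀ q ∈ R (ell k), T^[q + c] x ∈ O := by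
    intro c O hO hc
    have hcont : Continuous (T^[c]) := T.continuous.iterate c
    have : (T^[c]) ⁻¹' O ∈ 𝓝 x := (hO.preimage hcont).mem_nhds hc
    obtain ⟨k₀, hk₀⟩ := nhds_return_K this
    refine ⟨k₀, fun k hk q hq => ?_⟩
    have := hk₀ k hk q hq
    rw [mem_preimage, ← Function.iterate_add_apply, add_comm] at this
    exact this
  obtain ⟨k1, h1⟩ := key a U hU hu
  obtain ⟨k2, h2⟩ := key b V hV hv
  obtain ⟨k3, h3⟩ := key a' U' hU' hu'
  obtain ⟨k4, h4⟩ := key b' V' hV' hv'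
  set k := max (max (max k1 k2) (max k3 k4)) (a + b + a' + b') with hk
  have hk1 : k1 ≤ k := by omega
  have hk2 : k2 ≤ k := by omega
  have hk3 : k3 ≤ k := by omega
  have hk4 : k4 ≤ k := by omega
  have hkl : a + b + a' + b' ≤ ell k := le_trans (by omega) (le_ell k)
  set l := ell k with hl
  have hq : ∀ j ≤ 2 * l, 30 * l ^ 2 + 10 * (l * j) ∈ R l := fun j hj => Or.inr ⟨j, hj, Or.inl rfl⟩
  have hq' : ∀ j ≤ 2 * l, 30 * l ^ 2 + 10 * (l * j) + 3 * l + j ∈ R l :=
    fun j hj => Or.inr ⟨j, hj, Or.inr rfl⟩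
  refine ⟨3 * l + b + b', T^[(30 * l ^ 2 + 10 * (l * (a + b'))) + a] x,
    h1 k hk1 _ (hq _ (by omega)), T^[(30 * l ^ 2 + 10 * (l * (a' + b))) + a'] x,
    h3 k hk3 _ (hq _ (by omega)), ?_, ?_⟩
  · have := h2 k hk2 _ (hq' (a + b') (by omega))
    rw [← Function.iterate_add_apply]
    convert this using 2
    ring
  · have := h4 k hk4 _ (hq' (a' + b) (by omega))
    rw [← Function.iterate_add_apply]
    convert this using 2
    ring

/-- Birkhoff's transitivity theorem in the form needed. -/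
lemma exists_dense_orbit {Y : Type} [TopologicalSpace Y] [SecondCountableTopology Y]
    [BaireSpace Y] [Nonempty Y] (S : Y → Y) (hS : Continuous S)
    (h : ∀ U V : Set Y, IsOpen U → IsOpen V → U.Nonempty → V.Nonempty →
      ∃ n : ℕ, ∃ z ∈ U, S^[n] z ∈ V) :
    ∃ p : Y, Dense (Set.range fun n : ℕ => S^[n] p) := by
  obtain ⟨B, hBc, hBne, hB⟩ := TopologicalSpace.exists_countable_basis Y
  have hdense : Dense (⋂ V ∈ B, ⋃ n : ℕ, (S^[n]) ⁻¹' V) := by
    apply dense_biInter_of_isOpen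
    · intro V hV
      exact isOpen_iUnion fun n => (hB.isOpen hV).preimage (hS.iterate n)
    · exact hBc
    · intro V hV
      rw [dense_iff_inter_open]
      intro U hU hUn
      have hVn : V.Nonempty := by
        by_contra hcon
        rw [not_nonempty_iff_eq_empty] at hcon
        exact hBne (hcon ▸ hV)
      obtain ⟨n, z, hz, hzn⟩ := h U V hU (hB.isOpen hV) hUn hVn
      exact ⟨z, hz, mem_iUnion.2 ⟨n, hzn⟩⟩
  obtain ⟨p, hp⟩ := hdense.nonempty
  refine ⟨p, ?_⟩
  rw [dense_iff_inter_open]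
  intro W hW ⟨w, hw⟩
  obtain ⟨V, hV, hwV, hVW⟩ := hB.exists_subset_of_mem_open hw hW
  have := mem_iInter₂.1 hp V hV
  obtain ⟨n, hn⟩ := mem_iUnion.1 this
  exact ⟨_, hVW hn, ⟨n, rfl⟩⟩

lemma prod_iter (n : ℕ) (p : K × K) : (Prod.map T T)^[n] p = (T^[n] p.1, T^[n] p.2) := by
  rw [Prod.map_iterate]
  rfl

instance : CompactSpace K := isCompact_iff_compactSpace.1 isClosed_closure.isCompact

lemma weakly_mixing : ∃ p : K × K, Dense (Set.range fun n : ℕ => (Prod.map T T)^[n] p) := by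
  have : Nonempty K := ⟨x⟩
  apply exists_dense_orbit (Prod.map T T) (T.continuous.prodMap T.continuous)
  intro U V hU hV ⟨u, hu⟩ ⟨v, hv⟩
  obtain ⟨U1, U2, hU1, hU2, hu1, hu2, hUU⟩ := isOpen_prod_iff.1 hU u.1 u.2 hu
  obtain ⟨V1, V2, hV1, hV2, hv1, hv2, hVV⟩ := isOpen_prod_iff.1 hV v.1 v.2 hv
  obtain ⟨n, z, hz, z', hz', h1, h2⟩ := mixing hU1 hV1 hU2 hV2 ⟨_, hu1⟩ ⟨_, hv1⟩ ⟨_, hu2⟩ ⟨_, hv2⟩
  refine ⟨n, (z, z'), hUU ⟨hz, hz'⟩, hVV ?_⟩
  rw [prod_iter]
  exact ⟨h1, h2⟩

/-- The defining property of all points of the system: ones at distance from `Ainf` are absent. -/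
lemma K_free {z : ℤ → Bool} (hz : z ∈ K) {s : ℤ} (hs : z s = true) {n : ℕ} (hn : n ∈ Ainf) :
    z (s + n + 1) = false := by
  by_contra hcon
  rw [Bool.not_eq_false] at hcon
  have hW : {w : ℤ → Bool | w s = true ∧ w (s + n + 1) = true} ∈ 𝓝 z := by
    refine IsOpen.mem_nhds ?_ (show z s = true ∧ z (s + n + 1) = true from ⟨hs, hcon⟩)
    have h1 : IsOpen ((fun w : ℤ → Bool => w s) ⁻¹' {true}) :=
      (isOpen_discrete _).preimage (continuous_apply _)
    have h2 : IsOpen ((fun w : ℤ → Bool => w (s + n + 1)) ⁻¹' {true}) :=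
      (isOpen_discrete _).preimage (continuous_apply _)
    exact h1.inter h2
  obtain ⟨_, ⟨h1, h2⟩, ⟨k, rfl⟩⟩ := mem_closure_iff_nhds.1 hz _ hW
  simp only [sh_iter] at h1 h2
  obtain ⟨a, ha, ha'⟩ := x0_iff.1 h1
  obtain ⟨c, hc, hc'⟩ := x0_iff.1 h2
  exact Ainf_free ha hn hc (by omega)

lemma exists_one : ∃ z : K, (z : ℤ → Bool) 0 = true := ⟨x, x0_iff.2 ⟨0, zero_mem, rfl⟩⟩

lemma exists_one_at (s : ℕ) : ∃ z : K, (z : ℤ → Bool) s = true := by
  obtain ⟨z, hz⟩ := exists_one
  refine ⟨(T.symm)^[s] z, ?_⟩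
  have h : T^[s] ((T.symm)^[s] z) = z := by
    have := (Function.RightInverse.iterate (f := T) (g := T.symm) T.apply_symm_apply s)
    exact this z
  have h2 := T_iter s ((T.symm)^[s] z)
  rw [h] at h2
  have h3 := congrFun h2 0
  rw [sh_iter, zero_add] at h3
  rw [← h3, hz]

lemma no_partner (y : K) : ¬ Dense (Set.range fun n : ℕ => (Prod.map T T)^[n] (x, y)) := by
  intro hd
  rw [dense_iff_inter_open] at hd
  have hopen : ∀ i : ℤ, IsOpen {z : K | (z : ℤ → Bool) i = true} := by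
    intro i
    have hc : Continuous fun z : K => (z : ℤ → Bool) i :=
      (continuous_apply i).comp continuous_subtype_val
    exact (isOpen_discrete ({true} : Set Bool)).preimage hc
  -- the point `y` has a one at some nonnegative position
  obtain ⟨z, hz⟩ := exists_one
  obtain ⟨_, hw, ⟨s, rfl⟩⟩ := hd {w : K × K | (w.2 : ℤ → Bool) 0 = true}
    ((hopen 0).preimage continuous_snd) ⟨(z, z), hz⟩
  simp only [mem_ofPred_eq, prod_iter, T_iter, sh_iter, zero_add] at hw
  -- look for a visit to the forbidden product set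
  obtain ⟨z', hz'⟩ := exists_one_at (s + 1)
  obtain ⟨_, ⟨h1, h2⟩, ⟨n, rfl⟩⟩ := hd
    ({w : K × K | (w.1 : ℤ → Bool) 0 = true} ∩
      {w : K × K | (w.2 : ℤ → Bool) ((s + 1 : ℕ) : ℤ) = true})
    (((hopen 0).preimage continuous_fst).inter ((hopen _).preimage continuous_snd))
    ⟨(z, z'), hz, hz'⟩
  simp only [mem_ofPred_eq, prod_iter, T_iter, sh_iter, zero_add] at h1 h2
  obtain ⟨a, ha, ha'⟩ := x0_iff.1 h1
  have han : a = n := by exact_mod_cast ha'
  subst han
  have := K_free y.2 hw ha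
  have h3 : (((s + 1 : ℕ) : ℤ) + (a : ℤ)) = (s : ℤ) + (a : ℤ) + 1 := by push_cast; ring
  rw [h3, this] at h2
  exact absurd h2 (by simp)

/-- There are a compact metric space `X` and a homeomorphism `T` of `X` (in particular a
continuous surjection) such that `(X, T)` is weakly mixing, and a transitive point `x` of `(X, T)`
such that for no `y` in `X` the pair `(x, y)` is a transitive point of `(X × X, T × T)`. -/
theorem result :
    ∃ (X : Type) (_ : MetricSpace X) (_ : CompactSpace X) (T : X ≃ₜ X),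
      (∃ p : X × X, Dense (Set.range fun n : ℕ => (Prod.map T T)^[n] p)) ∧
      ∃ x : X, Dense (Set.range fun n : ℕ => T^[n] x) ∧
        ∀ y : X, ¬ Dense (Set.range fun n : ℕ => (Prod.map T T)^[n] (x, y)) := by
  refine ⟨K, TopologicalSpace.metrizableSpaceMetric K, inferInstance, T, ?_, x, ?_, ?_⟩
  · exact weakly_mixing
  · exact x_dense
  · exact no_partner

end Pool.Agent.Results.MP_a8308c_an.NoPartner
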